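import Pool.Agent.Helper47.GY.Bas
import Pool.Agent.Helper47.TW.M67a
import Pool.Agent.Helper98.GY.Stmts

/-!
Sheet GY (MP_7a8f48_an), row MSP: from ergodic joinings to the property of the random part, for
systems on compact metric spaces.
-/

set_option linter.unusedSectionVars false

open Finset Filter MeasureTheory Topology
open scoped ComplexConjugate InnerProductSpace BoundedContinuousFunction

namespace Pool.Agent.Helper47.GY

open Pool.Agent.Helper16.AZ (E Op)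
open Pool.Agent.Helper16.BZ (co Wk EE EQ EE_shift EE_norm Wk_norm)
open Pool.Agent.Helper16.MD (PB Rich)
open Pool.Agent.Helper40.DZ (SK)
open Pool.Agent.Helper40.JZ (LM)
open Pool.Agent.Helper40.TWM (NK)
open Pool.Agent.Helper98.GY (RI UR StrP JY aHY)
open Pool.Agent.Helper47.TW (App unif_boundF wlim_real tv tv_cont tv_inner)

variable {Y : Type} [MetricSpace Y] [CompactSpace Y] [MeasurableSpace Y] [BorelSpace Y]
  {ν : Measure Y} [IsProbabilityMeasure ν] {d : ℕ}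

/-- joinings of the powers `p` and `q` of `S` -/
structure Jn (ν : Measure Y) (S : Y → Y) (p q : ℕ) (lam : Measure (Y × Y)) : Prop where
  prob : IsProbabilityMeasure lam
  fst : lam.map Prod.fst = ν
  snd : lam.map Prod.snd = ν
  inv : MeasurePreserving (Prod.map S^[p] S^[q]) lam lam

/-- the powers are uniquely ergodic -/
theorem EQ.unique {S : Y → Y} (hS : Continuous S) (hE : EQ S ν) {p : ℕ} (hp : 1 ≤ p)
    (μ₁ : Measure (Y)) (hμ₁ : IsProbabilityMeasure μ₁) (hi : MeasurePreserving S^[p] μ₁ μ₁) :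
    μ₁ = ν := by
  refine ext_of_forall_integral_eq_of_IsFiniteMeasure fun f => ?_
  let F : Y → ℂ := fun x => ((f x : ℝ) : ℂ)
  have hF : Continuous F := Complex.continuous_ofReal.comp f.continuous
  have h1 := hE p hp F hF
  have hb : ∀ x, ‖F x‖ ≤ ‖f‖ := fun x => by
    show ‖((f x : ℝ) : ℂ)‖ ≤ _
    rw [Complex.norm_real]
    exact f.norm_coe_le_norm x
  have h2 : Tendsto (fun N : ℕ => ∫ x, (∑ n ∈ range N, F (S^[p * n] x)) / (N : ℂ) ∂μ₁) atTop
      (𝓝 (∫ _x, (∫ y, F y ∂ν) ∂μ₁)) := by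
    refine tendsto_integral_of_dominated_convergence (fun _ => ‖f‖) (fun N => ?_)
      (integrable_const _) (fun N => Eventually.of_forall fun x => ?_)
      (Eventually.of_forall fun x => h1 x)
    · refine Continuous.aestronglyMeasurable ?_
      refine Continuous.div_const (continuous_finsetSum _ fun n _ => ?_) _
      exact hF.comp (hS.iterate _)
    · rw [norm_div, Complex.norm_natCast]
      rcases Nat.eq_zero_or_pos N with rfl | hN
      · simp
      · have hN' : (0 : ℝ) < N := by exact_mod_cast hN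
        rw [div_le_iff₀ hN']
        refine (norm_sum_le _ _).trans ((Finset.sum_le_sum fun n _ => hb _).trans ?_)
        rw [Finset.sum_const, card_range, nsmul_eq_mul, mul_comm]
  have h3 : ∀ n : ℕ, ∫ x, F (S^[p * n] x) ∂μ₁ = ∫ x, F x ∂μ₁ := by
    intro n
    have h4 : MeasurePreserving S^[p * n] μ₁ μ₁ := by
      rw [Function.iterate_mul]
      exact hi.iterate n
    rw [← integral_map (μ := μ₁) (φ := S^[p * n]) h4.measurable.aemeasurable
      hF.aestronglyMeasurable, h4.map_eq]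
  have h5 : ∀ᶠ N : ℕ in atTop, ∫ x, (∑ n ∈ range N, F (S^[p * n] x)) / (N : ℂ) ∂μ₁ =
      ∫ x, F x ∂μ₁ := by
    filter_upwards [eventually_gt_atTop 0] with N hN
    have hN' : (N : ℂ) ≠ 0 := by exact_mod_cast hN.ne'
    rw [integral_div, integral_finsetSum]
    · simp only [h3]
      rw [Finset.sum_const, card_range, nsmul_eq_mul, mul_div_assoc, mul_comm,
        div_mul_cancel₀ _ hN']
    · intro n _
      refine Integrable.of_bound (C := ‖f‖) ?_ (Eventually.of_forall fun x => hb _)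
      exact (hF.comp (hS.iterate _)).aestronglyMeasurable
  have h6 := tendsto_nhds_unique (h2.congr' h5) tendsto_const_nhds
  rw [integral_const, probReal_univ, one_smul] at h6
  have h7 : ∀ μ : Measure (Y), ∫ x, F x ∂μ = ((∫ x, f x ∂μ : ℝ) : ℂ) := fun μ => integral_ofReal
  rw [h7, h7] at h6
  exact_mod_cast h6.symm

/-- all invariant measures of the product are joinings -/
theorem Jn.of_inv {S : Y → Y} (hS : Continuous S) (hE : EQ S ν) {p q : ℕ} (hp : 1 ≤ p)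
    (hq : 1 ≤ q) (lam : Measure (Y × Y)) (hl : IsProbabilityMeasure lam)
    (hi : MeasurePreserving (Prod.map S^[p] S^[q]) lam lam) : Jn ν S p q lam := by
  refine ⟨hl, ?_, ?_, hi⟩
  · refine EQ.unique hS hE hp _ (Measure.isProbabilityMeasure_map measurable_fst.aemeasurable) ?_
    refine ⟨(hS.iterate p).measurable, ?_⟩
    rw [Measure.map_map (hS.iterate p).measurable measurable_fst]
    conv_rhs => rw [← hi.map_eq, Measure.map_map measurable_fst hi.measurable]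
    rfl
  · refine EQ.unique hS hE hq _ (Measure.isProbabilityMeasure_map measurable_snd.aemeasurable) ?_
    refine ⟨(hS.iterate q).measurable, ?_⟩
    rw [Measure.map_map (hS.iterate q).measurable measurable_snd]
    conv_rhs => rw [← hi.map_eq, Measure.map_map measurable_snd hi.measurable]
    rfl

/-- the product of the inner products at the two points -/
noncomputable def pk (S : Y → Y) (φ : Y → Op d) (c : Y → E d) (p q h h' : ℕ)
    (z : Y × Y) : ℂ :=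
  EE S φ c (p * h) (p * h') z.1 * conj (EE S φ c (q * h) (q * h') z.2)

/-- the kernel of a joining -/
noncomputable def Nk (S : Y → Y) (φ : Y → Op d) (c : Y → E d) (p q : ℕ)
    (lam : Measure (Y × Y)) (h h' : ℕ) : ℝ := (∫ z, pk S φ c p q h h' z ∂lam).re

section kernel

variable {S : Y → Y} {φ : Y → Op d} {c : Y → E d} {p q : ℕ} {lam : Measure (Y × Y)}

theorem ri_fst {V : Type} [NormedAddCommGroup V] {F : Y → V} (hF : RI ν F)
    (hl : lam.map Prod.fst = ν) : AEStronglyMeasurable (fun z => F z.1) lam := by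
  have h1 : AEStronglyMeasurable F (lam.map Prod.fst) := by
    rw [hl]
    exact ri_aesm hF
  exact h1.comp_measurable measurable_fst

theorem ri_snd {V : Type} [NormedAddCommGroup V] {F : Y → V} (hF : RI ν F)
    (hl : lam.map Prod.snd = ν) : AEStronglyMeasurable (fun z => F z.2) lam := by
  have h1 : AEStronglyMeasurable F (lam.map Prod.snd) := by
    rw [hl]
    exact ri_aesm hF
  exact h1.comp_measurable measurable_snd

theorem pk_aesm (hS : Continuous S) (hm : MeasurePreserving S ν ν) (hφ : UR ν φ)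
    (hc : Continuous c) (h1 : lam.map Prod.fst = ν) (h2 : lam.map Prod.snd = ν)
    (h h' : ℕ) : AEStronglyMeasurable (pk S φ c p q h h') lam :=
  (ri_fst (EE_RI hS hm hφ (ri_cont hc) _ _) h1).mul
    (ri_snd (ri_conj (EE_RI hS hm hφ (ri_cont hc) _ _)) h2)

theorem pk_norm (hφ : UR ν φ) (V : ℝ) (hV : ∀ x, ‖c x‖ ≤ V) (h h' : ℕ) (z : Y × Y) :
    ‖pk S φ c p q h h' z‖ ≤ V ^ 2 * V ^ 2 := by
  rw [pk, norm_mul, RCLike.norm_conj]
  exact mul_le_mul (EE_norm S φ c hφ.2 V hV _ _ _) (EE_norm S φ c hφ.2 V hV _ _ _)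
    (norm_nonneg _) (sq_nonneg _)

theorem pk_shift (hφ : UR ν φ) (h h' : ℕ) (z : Y × Y) :
    pk S φ c p q (h + 1) (h' + 1) z = pk S φ c p q h h' (Prod.map S^[p] S^[q] z) := by
  have e : ∀ (m k k' : ℕ) (x : Y), EE S φ c (m * (k + 1)) (m * (k' + 1)) x =
      EE S φ c (m * k) (m * k') (S^[m] x) := by
    intro m k k' x
    rw [mul_add, mul_add, mul_one]
    exact EE_shift S φ c hφ.2 _ _ _ x
  rw [pk, pk, e, e]
  rfl

theorem pk_int (hS : Continuous S) (hm : MeasurePreserving S ν ν) (hφ : UR ν φ)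
    (hc : Continuous c) (hl : Jn ν S p q lam) (h h' : ℕ) : Integrable (pk S φ c p q h h') lam := by
  have := hl.prob
  obtain ⟨V, hV⟩ := (ri_cont (ν := ν) hc).2
  exact Integrable.of_bound (pk_aesm hS hm hφ hc hl.fst hl.snd h h') (V ^ 2 * V ^ 2)
    (Eventually.of_forall fun z => pk_norm hφ V hV h h' z)

theorem Nk_SK (hS : Continuous S) (hm : MeasurePreserving S ν ν) (hφ : UR ν φ)
    (hc : Continuous c) (hl : Jn ν S p q lam) : SK (Nk S φ c p q lam) := by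
  have := hl.prob
  obtain ⟨V, hV⟩ := (ri_cont (ν := ν) hc).2
  let w : ℕ → Y × Y → EuclideanSpace ℂ (Bool × (Fin d × Fin d)) := fun h z =>
    tv (Wk S φ (p * h) c z.1, Wk S φ (q * h) c z.2)
  have hwm : ∀ h, AEStronglyMeasurable (w h) lam := fun h =>
    tv_cont.comp_aestronglyMeasurable
      ((ri_fst (Wk_RI hS hm hφ (ri_cont hc) _) hl.fst).prodMk
        (ri_snd (Wk_RI hS hm hφ (ri_cont hc) _) hl.snd))
  have hwi : ∀ h h' z, (inner ℂ (w h z) (w h' z) : ℂ) = ((pk S φ c p q h h' z).re : ℂ) :=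
    fun h h' z => tv_inner _ _ _ _
  have hwn : ∀ h z, ‖w h z‖ ≤ V ^ 2 := by
    intro h z
    have h1 : ‖w h z‖ ^ 2 ≤ V ^ 2 * V ^ 2 := by
      have h2 := hwi h h z
      rw [inner_self_eq_norm_sq_to_K] at h2
      have h3 : ‖w h z‖ ^ 2 = (pk S φ c p q h h z).re := by
        have h5 := congrArg Complex.re h2
        rw [Complex.ofReal_re] at h5
        rw [← h5]
        norm_cast
      rw [h3]
      exact (Complex.re_le_norm _).trans (pk_norm hφ V hV h h z)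
    have h4 : (0 : ℝ) ≤ V ^ 2 := sq_nonneg V
    nlinarith [norm_nonneg (w h z)]
  have hwL : ∀ h, MemLp (w h) 2 lam := fun h =>
    MemLp.of_bound (hwm h) (V ^ 2) (Eventually.of_forall fun z => hwn h z)
  refine ⟨⟨Lp (EuclideanSpace ℂ (Bool × (Fin d × Fin d))) 2 lam, inferInstance, inferInstance,
    inferInstance, fun h => (hwL h).toLp (w h), fun k k' => ?_⟩, fun k k' => ?_⟩
  · rw [L2.inner_def]
    have h1 : ∀ᵐ z ∂lam, inner ℂ ((hwL k).toLp (w k) z) ((hwL k').toLp (w k') z) =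
        ((pk S φ c p q k k' z).re : ℂ) := by
      filter_upwards [(hwL k).coeFn_toLp, (hwL k').coeFn_toLp] with z e1 e2
      rw [e1, e2]
      exact hwi k k' z
    have h2 := Complex.reCLM.integral_comp_comm (pk_int hS hm hφ hc hl k k')
    have h3 : ∫ z, (((pk S φ c p q k k' z).re : ℝ) : ℂ) ∂lam =
        ((∫ z, (pk S φ c p q k k' z).re ∂lam : ℝ) : ℂ) := integral_ofReal
    rw [integral_congr_ae h1]
    refine h3.trans ?_
    exact congrArg (fun t : ℝ => (t : ℂ)) h2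
  · rw [Nk, Nk]
    congr 1
    simp only [pk_shift hφ]
    rw [← integral_map (μ := lam) hl.inv.measurable.aemeasurable (f := pk S φ c p q k k'),
      hl.inv.map_eq]
    rw [hl.inv.map_eq]
    exact pk_aesm hS hm hφ hc hl.fst hl.snd k k'

end kernel


/-- real functions on pairs which are near continuous functions -/
def Nice (ν : Measure Y) (Ψ : Y × Y → ℝ) : Prop := ∀ δ : ℝ, 0 < δ →
  ∃ (φ : (Y × Y) →ᵇ ℝ) (R₁ R₂ : Y → ℝ), Continuous R₁ ∧ Continuous R₂ ∧
    (∀ z, |Ψ z - φ z| ≤ R₁ z.1 + R₂ z.2) ∧ ∫ x, R₁ x ∂ν ≤ δ ∧ ∫ x, R₂ x ∂ν ≤ δ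

theorem Nice.zero : Nice ν (fun _ : Y × Y => 0) := fun δ hδ =>
  ⟨0, fun _ => 0, fun _ => 0, continuous_const, continuous_const, fun z => by simp, by simpa using hδ.le,
    by simpa using hδ.le⟩

theorem int_cont_mm {f : Y → ℝ} (hf : Continuous f) : Integrable f ν :=
  hf.integrable_of_hasCompactSupport (HasCompactSupport.of_compactSpace f)

theorem Nice.add {Ψ Ψ' : Y × Y → ℝ} (h : Nice ν Ψ) (h' : Nice ν Ψ') :
    Nice ν (fun z => Ψ z + Ψ' z) := by
  intro δ hδ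
  obtain ⟨φ, R₁, R₂, a1, a2, a3, a4, a5⟩ := h (δ / 2) (by positivity)
  obtain ⟨φ', R₁', R₂', b1, b2, b3, b4, b5⟩ := h' (δ / 2) (by positivity)
  refine ⟨φ + φ', fun x => R₁ x + R₁' x, fun x => R₂ x + R₂' x, a1.add b1, a2.add b2,
    fun z => ?_, ?_, ?_⟩
  · have h1 : Ψ z + Ψ' z - (φ + φ') z = (Ψ z - φ z) + (Ψ' z - φ' z) := by
      rw [BoundedContinuousFunction.add_apply]
      ring
    rw [h1]
    refine (abs_add_le _ _).trans ?_
    have := a3 z
    have := b3 z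
    linarith
  · rw [integral_add (int_cont_mm a1) (int_cont_mm b1)]
    linarith
  · rw [integral_add (int_cont_mm a2) (int_cont_mm b2)]
    linarith

theorem Nice.sum {ι : Type*} (s : Finset ι) {Ψ : ι → Y × Y → ℝ} (h : ∀ i ∈ s, Nice ν (Ψ i)) :
    Nice ν (fun z => ∑ i ∈ s, Ψ i z) := by
  classical
  induction s using Finset.induction_on with
  | empty => simpa using Nice.zero
  | insert a s ha ih =>
    have := (h a (Finset.mem_insert_self a s)).add
      (ih fun i hi => h i (Finset.mem_insert_of_mem hi))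
    simpa only [Finset.sum_insert ha] using this

theorem nice_pk (hRIS : Pool.Agent.Helper98.GY.ST_RIS) {S : Y → Y} (hS : Continuous S)
    (hm : MeasurePreserving S ν ν) {φ : Y → Op d} (hφ : UR ν φ) {c : Y → E d}
    (hc : Continuous c) (p q h h' : ℕ) : Nice ν (fun z => (pk S φ c p q h h' z).re) := by
  intro δ hδ
  obtain ⟨V, hV⟩ := (ri_cont (ν := ν) hc).2
  obtain ⟨C, hC⟩ : ∃ C : ℝ, C = V ^ 2 + 1 := ⟨_, rfl⟩
  have hC0 : 0 < C := by rw [hC]; positivity
  have hA : ∀ k k' x, ‖EE S φ c k k' x‖ ≤ C := fun k k' x =>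
    (EE_norm S φ c hφ.2 V hV _ _ _).trans (by rw [hC]; linarith)
  obtain ⟨G, R₁, g1, r1, e1, e2, e3, e4⟩ := hRIS Y ν ℂ (EE S φ c (p * h) (p * h')) C
    (EE_RI hS hm hφ (ri_cont hc) _ _).1 (hA _ _) (δ / C) (by positivity)
  obtain ⟨G', R₂, g1', r1', e1', e2', e3', e4'⟩ := hRIS Y ν ℂ (EE S φ c (q * h) (q * h')) C
    (EE_RI hS hm hφ (ri_cont hc) _ _).1 (hA _ _) (δ / C) (by positivity)
  have hgc : Continuous fun z : Y × Y => (G z.1 * conj (G' z.2)).re :=
    Complex.continuous_re.comp ((g1.comp continuous_fst).mul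
      (Complex.continuous_conj.comp (g1'.comp continuous_snd)))
  refine ⟨BoundedContinuousFunction.mkOfCompact ⟨_, hgc⟩, fun x => C * R₁ x, fun x => C * R₂ x,
    continuous_const.mul r1, continuous_const.mul r1', fun z => ?_, ?_, ?_⟩
  · have h1 : (pk S φ c p q h h' z).re - (G z.1 * conj (G' z.2)).re =
        ((EE S φ c (p * h) (p * h') z.1 - G z.1) * conj (EE S φ c (q * h) (q * h') z.2) +
          G z.1 * conj (EE S φ c (q * h) (q * h') z.2 - G' z.2)).re := by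
      rw [← Complex.sub_re, pk, map_sub]
      congr 1
      ring
    change |(pk S φ c p q h h' z).re - (G z.1 * conj (G' z.2)).re| ≤ _
    rw [h1]
    refine (Complex.abs_re_le_norm _).trans ((norm_add_le _ _).trans ?_)
    rw [norm_mul, norm_mul, RCLike.norm_conj, RCLike.norm_conj]
    have h2 : ‖EE S φ c (p * h) (p * h') z.1 - G z.1‖ * ‖EE S φ c (q * h) (q * h') z.2‖ ≤
        C * R₁ z.1 := by
      rw [mul_comm]
      exact mul_le_mul (hA _ _ _) (e1 _) (norm_nonneg _) hC0.le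
    have h3 : ‖G z.1‖ * ‖EE S φ c (q * h) (q * h') z.2 - G' z.2‖ ≤ C * R₂ z.2 :=
      mul_le_mul (e3 _) (e1' _) (norm_nonneg _) hC0.le
    exact add_le_add h2 h3
  · rw [integral_const_mul]
    calc C * ∫ x, R₁ x ∂ν ≤ C * (δ / C) := mul_le_mul_of_nonneg_left e4 hC0.le
      _ = δ := by field_simp
  · rw [integral_const_mul]
    calc C * ∫ x, R₂ x ∂ν ≤ C * (δ / C) := mul_le_mul_of_nonneg_left e4' hC0.le
      _ = δ := by field_simp

section

variable {S : Y → Y} {p q : ℕ}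

theorem Jn.int_fst {lam : Measure (Y × Y)} (hl : Jn ν S p q lam) {f : Y → ℝ}
    (hf : Continuous f) : ∫ z, f z.1 ∂lam = ∫ x, f x ∂ν := by
  rw [← hl.fst, integral_map measurable_fst.aemeasurable]
  rw [hl.fst]
  exact hf.aestronglyMeasurable

theorem Jn.int_snd {lam : Measure (Y × Y)} (hl : Jn ν S p q lam) {f : Y → ℝ}
    (hf : Continuous f) : ∫ z, f z.2 ∂lam = ∫ x, f x ∂ν := by
  rw [← hl.snd, integral_map measurable_snd.aemeasurable]
  rw [hl.snd]
  exact hf.aestronglyMeasurable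

theorem Jn.near {lam : Measure (Y × Y)} (hl : Jn ν S p q lam) {Ψ : Y × Y → ℝ}
    (hΨ : Integrable Ψ lam) {δ : ℝ} {φ : (Y × Y) →ᵇ ℝ} {R₁ R₂ : Y → ℝ}
    (h1 : Continuous R₁) (h2 : Continuous R₂) (h3 : ∀ z, |Ψ z - φ z| ≤ R₁ z.1 + R₂ z.2)
    (h4 : ∫ x, R₁ x ∂ν ≤ δ) (h5 : ∫ x, R₂ x ∂ν ≤ δ) :
    |∫ z, Ψ z ∂lam - ∫ z, φ z ∂lam| ≤ 2 * δ := by
  have := hl.prob
  have i0 : Integrable (fun z => φ z) lam := φ.integrable lam
  have i1 : Integrable (fun z : Y × Y => R₁ z.1) lam :=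
    (h1.comp continuous_fst).integrable_of_hasCompactSupport
      (HasCompactSupport.of_compactSpace _)
  have i2 : Integrable (fun z : Y × Y => R₂ z.2) lam :=
    (h2.comp continuous_snd).integrable_of_hasCompactSupport
      (HasCompactSupport.of_compactSpace _)
  rw [← integral_sub hΨ i0]
  calc |∫ z, (Ψ z - φ z) ∂lam| ≤ ∫ z, |Ψ z - φ z| ∂lam := abs_integral_le_integral_abs
    _ ≤ ∫ z, (R₁ z.1 + R₂ z.2) ∂lam :=
      integral_mono (hΨ.sub i0).abs (i1.add i2) h3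
    _ = ∫ x, R₁ x ∂ν + ∫ x, R₂ x ∂ν := by
      rw [integral_add i1 i2, hl.int_fst h1, hl.int_snd h2]
    _ ≤ 2 * δ := by linarith

theorem Nice.app (hS : Continuous S) (hE : EQ S ν) (hp : 1 ≤ p) (hq : 1 ≤ q)
    {Ψ : Y × Y → ℝ} (hΨ : Nice ν Ψ) (hi : ∀ lam, Jn ν S p q lam → Integrable Ψ lam) :
    App (Prod.map S^[p] S^[q]) (fun lam => ∫ z, Ψ z ∂lam) := by
  intro δ hδ
  obtain ⟨φ, R₁, R₂, a1, a2, a3, a4, a5⟩ := hΨ (δ / 2) (by positivity)
  refine ⟨φ, fun lam hl hinv => ?_⟩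
  have hJ := Jn.of_inv hS hE hp hq lam hl hinv
  have := hJ.near (hi lam hJ) a1 a2 a3 a4 a5
  linarith

theorem Nice.orbit (hEQR : Pool.Agent.Helper98.GY.ST_EQR) (hS : Continuous S)
    (hE : EQ S ν) (hp : 1 ≤ p) (hq : 1 ≤ q)
    {Ψ : Y × Y → ℝ} (hΨ : Nice ν Ψ) (hi : ∀ lam, Jn ν S p q lam → Integrable Ψ lam) (C : ℝ)
    (hC : ∀ lam, Jn ν S p q lam → ∫ z, Ψ z ∂lam < C) (x : Y) (ε : ℝ) (hε : 0 < ε) :
    ∀ᶠ M : ℕ in atTop, ∑ y ∈ Icc 1 M, Ψ (S^[p * y] x, S^[q * y] x) ≤ (C + ε) * M := by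
  obtain ⟨φ, R₁, R₂, a1, a2, a3, a4, a5⟩ := hΨ (ε / 6) (by positivity)
  have hτ : Continuous (Prod.map S^[p] S^[q]) := (hS.iterate p).prodMap (hS.iterate q)
  have b1 := wlim_real hτ φ (C + ε / 3) (fun lam hl hinv => by
    have hJ := Jn.of_inv hS hE hp hq lam hl hinv
    have h1 := (abs_le.1 (hJ.near (hi lam hJ) a1 a2 a3 a4 a5)).1
    have h2 := hC lam hJ
    linarith) (x, x)
  have b2 : ∀ (f : Y → ℝ), Continuous f → ∫ y, f y ∂ν ≤ ε / 6 → ∀ m : ℕ, 1 ≤ m →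
      ∀ᶠ M : ℕ in atTop, ∑ y ∈ Icc 1 M, f (S^[m * y] x) ≤ ε / 3 * M := by
    intro f hf hfi m hm
    have hRI : RI ν (fun y => ((f y : ℝ) : ℂ)) :=
      ri_cont (Complex.continuous_ofReal.comp hf)
    have g1 := (hEQR Y ν S hE _ hRI m x hm).2
    have g2 : ∫ y, ((f y : ℝ) : ℂ) ∂ν = ((∫ y, f y ∂ν : ℝ) : ℂ) := integral_ofReal
    rw [g2] at g1
    have g3 := (Complex.continuous_re.tendsto _).comp g1
    rw [Complex.ofReal_re] at g3
    have g5 : Tendsto (fun M : ℕ => (∑ y ∈ Icc 1 M, f (S^[m * y] x)) / (M : ℝ))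
        atTop (𝓝 (∫ y, f y ∂ν)) := by
      refine g3.congr fun M => ?_
      simp only [Function.comp_apply]
      rw [← Complex.ofReal_sum, ← Complex.ofReal_natCast, ← Complex.ofReal_div, Complex.ofReal_re]
    filter_upwards [g5.eventually (gt_mem_nhds (show ∫ y, f y ∂ν < ε / 3 by linarith)),
      eventually_gt_atTop 0] with M hM hM0
    have hM0' : (0 : ℝ) < M := by exact_mod_cast hM0
    rw [div_lt_iff₀ hM0'] at hM
    exact hM.le
  filter_upwards [b1, b2 R₁ a1 a4 p hp, b2 R₂ a2 a5 q hq] with M c1 c2 c3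
  have hit : ∀ y : ℕ, (Prod.map S^[p] S^[q])^[y] (x, x) = (S^[p * y] x, S^[q * y] x) := by
    intro y
    rw [Prod.map_iterate, Prod.map_apply, Function.iterate_mul, Function.iterate_mul]
  have h1 : ∀ y ∈ Icc 1 M, Ψ (S^[p * y] x, S^[q * y] x) ≤
      φ ((Prod.map S^[p] S^[q])^[y] (x, x)) + (R₁ (S^[p * y] x) + R₂ (S^[q * y] x)) := by
    intro y _
    rw [hit]
    have := (abs_le.1 (a3 (S^[p * y] x, S^[q * y] x))).2
    simp only at this
    linarith
  refine (Finset.sum_le_sum h1).trans ?_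
  rw [Finset.sum_add_distrib, Finset.sum_add_distrib]
  have : (C + ε) * (M : ℝ) = (C + ε / 3) * M + (ε / 3 * M + ε / 3 * M) := by ring
  rw [this]
  exact add_le_add c1 (add_le_add c2 c3)

end


section

variable {S : Y → Y} {φ : Y → Op d} {c : Y → E d} {p q : ℕ} {lam : Measure (Y × Y)}

theorem aHY_eq (H : ℕ) : aHY S φ c p q lam H =
    (∑ h ∈ range H, ∑ h' ∈ range H, Nk S φ c p q lam h h') / (H : ℝ) ^ 2 := by
  unfold aHY Nk
  rw [Complex.re_sum]
  congr 1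
  refine Finset.sum_congr rfl fun h _ => ?_
  rw [Complex.re_sum]
  rfl

/-- positive definite kernels have nonnegative sums -/
theorem sk_nonneg {N : ℕ → ℕ → ℝ} (hN : SK N) (H : ℕ) :
    0 ≤ ∑ h ∈ range H, ∑ h' ∈ range H, N h h' := by
  obtain ⟨⟨V, _, _, _, w, hw⟩, -⟩ := hN
  have h1 : (inner ℂ (∑ h ∈ range H, w h) (∑ h ∈ range H, w h) : ℂ) =
      ((∑ h ∈ range H, ∑ h' ∈ range H, N h h' : ℝ) : ℂ) := by
    rw [sum_inner]
    push_cast
    refine Finset.sum_congr rfl fun h _ => ?_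
    rw [inner_sum]
    exact Finset.sum_congr rfl fun h' _ => hw h h'
  have h2 := inner_self_nonneg (𝕜 := ℂ) (x := ∑ h ∈ range H, w h)
  rw [h1] at h2
  simpa using h2

/-- the average of the kernel as a function of pairs of points -/
noncomputable def PS (S : Y → Y) (φ : Y → Op d) (c : Y → E d) (p q H : ℕ)
    (z : Y × Y) : ℝ :=
  ∑ h ∈ range H, ∑ h' ∈ range H, (pk S φ c p q h h' z).re / (H : ℝ) ^ 2

theorem nice_mul {Ψ : Y × Y → ℝ} (h : Nice ν Ψ) {a : ℝ} (ha : 0 ≤ a) :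
    Nice ν (fun z => Ψ z * a) := by
  intro δ hδ
  obtain ⟨f, R₁, R₂, a1, a2, a3, a4, a5⟩ := h (δ / (a + 1)) (by positivity)
  have h6 : ∀ t : ℝ, t ≤ δ / (a + 1) → t * a ≤ δ := by
    intro t ht
    have h7 : 0 < a + 1 := by positivity
    calc t * a ≤ δ / (a + 1) * a := mul_le_mul_of_nonneg_right ht ha
      _ ≤ δ / (a + 1) * (a + 1) := mul_le_mul_of_nonneg_left (by linarith) (by positivity)
      _ = δ := by field_simp
  refine ⟨a • f, fun x => R₁ x * a, fun x => R₂ x * a, a1.mul continuous_const,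
    a2.mul continuous_const, fun z => ?_, ?_, ?_⟩
  · have h1 : Ψ z * a - (a • f) z = (Ψ z - f z) * a := by
      change Ψ z * a - a * f z = (Ψ z - f z) * a
      ring
    rw [h1, abs_mul, abs_of_nonneg ha, ← add_mul]
    exact mul_le_mul_of_nonneg_right (a3 z) ha
  · rw [integral_mul_const]
    exact h6 _ a4
  · rw [integral_mul_const]
    exact h6 _ a5

theorem nice_PS (hRIS : Pool.Agent.Helper98.GY.ST_RIS) (hS : Continuous S)
    (hm : MeasurePreserving S ν ν) (hφ : UR ν φ) (hc : Continuous c) (p q H : ℕ) :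
    Nice ν (PS S φ c p q H) := by
  unfold PS
  refine Nice.sum _ fun h _ => Nice.sum _ fun h' _ => ?_
  simp only [div_eq_mul_inv]
  exact nice_mul (nice_pk hRIS hS hm hφ hc p q h h') (by positivity)

theorem PS_int (hS : Continuous S) (hm : MeasurePreserving S ν ν) (hφ : UR ν φ)
    (hc : Continuous c) (hl : Jn ν S p q lam) (H : ℕ) : Integrable (PS S φ c p q H) lam := by
  unfold PS
  refine integrable_finsetSum _ fun h _ => integrable_finsetSum _ fun h' _ => ?_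
  exact (pk_int hS hm hφ hc hl h h').re.div_const _

theorem PS_eq (hS : Continuous S) (hm : MeasurePreserving S ν ν) (hφ : UR ν φ)
    (hc : Continuous c) (hl : Jn ν S p q lam) (H : ℕ) :
    ∫ z, PS S φ c p q H z ∂lam = aHY S φ c p q lam H := by
  have hi : ∀ h h' : ℕ, Integrable (fun z => (pk S φ c p q h h' z).re / (H : ℝ) ^ 2) lam :=
    fun h h' => (pk_int hS hm hφ hc hl h h').re.div_const ((H : ℝ) ^ 2)
  rw [aHY_eq, Finset.sum_div]
  unfold PS
  rw [integral_finsetSum _ fun h _ => integrable_finsetSum _ fun h' _ => hi h h']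
  refine Finset.sum_congr rfl fun h _ => ?_
  rw [integral_finsetSum _ fun h' _ => hi h h', Finset.sum_div]
  refine Finset.sum_congr rfl fun h' _ => ?_
  rw [integral_div]
  congr 1
  exact integral_re (pk_int hS hm hφ hc hl h h')

/-- a uniform bound from the ergodic joinings -/
theorem pair_bound (hKER : Pool.Agent.Helper40.DZ.ST_KER) (hRIS : Pool.Agent.Helper98.GY.ST_RIS)
    (hS : Continuous S) (hm : MeasurePreserving S ν ν) (hE : EQ S ν) (hφ : UR ν φ)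
    (hc : Continuous c) (hp : 1 ≤ p) (hq : 1 ≤ q) (C ε : ℝ) (hε : 0 < ε)
    (hC : ∀ κ : Measure (Y × Y), IsProbabilityMeasure κ → κ.map Prod.fst = ν →
      κ.map Prod.snd = ν → Ergodic (Prod.map S^[p] S^[q]) κ →
      ∀ᶠ H : ℕ in atTop, aHY S φ c p q κ H ≤ C) :
    ∃ j₀ : ℕ, ∀ j ≥ j₀, ∀ lam : Measure (Y × Y), Jn ν S p q lam →
      aHY S φ c p q lam (j + 1).factorial < C + ε := by
  have hτ : Continuous (Prod.map S^[p] S^[q]) := (hS.iterate p).prodMap (hS.iterate q)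
  obtain ⟨j₀, hj⟩ := unif_boundF hτ (fun j lam => aHY S φ c p q lam (j + 1).factorial)
    (fun j => by
      have h1 := (nice_PS hRIS hS hm hφ hc p q (j + 1).factorial).app hS hE hp hq
        fun lam hl => PS_int hS hm hφ hc hl _
      intro δ hδ
      obtain ⟨f, hf⟩ := h1 δ hδ
      refine ⟨f, fun lam hl hi => ?_⟩
      have h2 := hf lam hl hi
      simp only at h2 ⊢
      rwa [PS_eq hS hm hφ hc (Jn.of_inv hS hE hp hq lam hl hi)] at h2)
    (fun lam hl hi => antitone_nat_of_succ_le fun j => by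
      have hJ := Jn.of_inv hS hE hp hq lam hl hi
      have h1 := (hKER _ (Nk_SK hS hm hφ hc hJ)).2 1 (j + 1).factorial (j + 2)
      simp only [one_mul] at h1
      have h2 : (j + 1 + 1).factorial = (j + 1).factorial * (j + 2) := by
        rw [Nat.factorial_succ, mul_comm]
      have h3 : (0 : ℝ) < ((j + 1).factorial : ℝ) := by exact_mod_cast Nat.factorial_pos _
      have h4 : (0 : ℝ) < ((j + 2 : ℕ) : ℝ) := by positivity
      rw [aHY_eq, aHY_eq, h2, div_le_div_iff₀ (by positivity) (by positivity)]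
      push_cast at h1 ⊢
      nlinarith [mul_le_mul_of_nonneg_right h1 (sq_nonneg ((j + 1).factorial : ℝ))])
    0 (fun lam hl hi j => by
      rw [aHY_eq]
      exact div_nonneg (sk_nonneg (Nk_SK hS hm hφ hc (Jn.of_inv hS hE hp hq lam hl hi)) _)
        (sq_nonneg _)) (C + ε) (fun lam hl he => by
      have hJ := Jn.of_inv hS hE hp hq lam hl he.toMeasurePreserving
      obtain ⟨H₁, h1⟩ := eventually_atTop.1 (hC lam hl hJ.fst hJ.snd he)
      refine ⟨H₁, ?_⟩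
      have h2 := h1 (H₁ + 1).factorial ((Nat.le_succ H₁).trans (Nat.self_le_factorial _))
      show aHY S φ c p q lam (H₁ + 1).factorial < C + ε
      linarith)
  exact ⟨j₀, fun j hjj lam hl => hj j hjj lam hl.prob hl.inv⟩

/-- the product measure is a joining -/
theorem jn_prod (hm : MeasurePreserving S ν ν) (p : ℕ) :
    Jn ν S p p (ν.prod ν) := by
  refine ⟨inferInstance, ?_, ?_, (hm.iterate p).prod (hm.iterate p)⟩
  · rw [Measure.map_fst_prod, measure_univ, one_smul]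
  · rw [Measure.map_snd_prod, measure_univ, one_smul]

theorem Nk_prod (p : ℕ) (h h' : ℕ) : Nk S φ c p p (ν.prod ν) h h' =
    NK ν S φ c (p * h) (p * h') := by
  unfold Nk NK pk
  rw [integral_prod_mul (μ := ν) (ν := ν) (EE S φ c (p * h) (p * h'))
    (fun x => conj (EE S φ c (p * h) (p * h') x)), integral_conj, Complex.mul_conj,
    Complex.ofReal_re, Complex.normSq_eq_norm_sq]

/-- the limit mass is at most the average -/
theorem LM_le (hLMF : Pool.Agent.Helper40.JZ.ST_LMF) (hS : Continuous S)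
    (hm : MeasurePreserving S ν ν) (hφ : UR ν φ) (hc : Continuous c) (p H₀ : ℕ)
    (hH : 1 ≤ H₀) : LM (NK ν S φ c) p ≤
    (∑ h ∈ range H₀, ∑ h' ∈ range H₀, NK ν S φ c (p * h) (p * h')) / (H₀ : ℝ) ^ 2 := by
  have h1 := (hLMF _ (Nk_SK hS hm hφ hc (jn_prod hm p))).2.2.2.1 H₀ hH
  have h2 : LM (Nk S φ c p p (ν.prod ν)) 1 = LM (NK ν S φ c) p := by
    unfold LM
    simp only [Nk_prod, one_mul]
  rw [h2] at h1
  simpa only [Nk_prod] using h1

end

/-- expansion of the square -/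
theorem str4_sq' (Q : Finset ℕ) (z : ℕ → ℂ) :
    ‖∑ p ∈ Q, z p‖ ^ 2 =
      ∑ p ∈ Q, ‖z p‖ ^ 2 + ∑ p ∈ Q, ∑ q ∈ Q.erase p, (z p * conj (z q)).re := by
  have h1 : ‖∑ p ∈ Q, z p‖ ^ 2 = ((∑ p ∈ Q, z p) * conj (∑ p ∈ Q, z p)).re := by
    rw [Complex.mul_conj, Complex.ofReal_re, Complex.normSq_eq_norm_sq]
  have h2 : (∑ p ∈ Q, z p) * conj (∑ p ∈ Q, z p) = ∑ p ∈ Q, ∑ q ∈ Q, z p * conj (z q) := by
    rw [map_sum, Finset.sum_mul_sum]
  rw [h1, h2, Complex.re_sum, ← Finset.sum_add_distrib]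
  refine Finset.sum_congr rfl fun p hp => ?_
  rw [Complex.re_sum, ← Finset.add_sum_erase Q _ hp]
  congr 1
  rw [Complex.mul_conj, Complex.ofReal_re, Complex.normSq_eq_norm_sq]

/-- rich blocks have many primes -/
theorem rich_large (B : ℝ) : ∀ᶠ i : ℕ in atTop, Rich 1 i → B ≤ ((PB 1 i).card : ℝ) := by
  have h1 := tendsto_pow_const_div_const_pow_of_one_lt 1 (r := (2 : ℝ)) (by norm_num)
  have h2 : Tendsto (fun i : ℕ => (4 * |B|) * ((i : ℝ) ^ 1 / 2 ^ i)) atTop (𝓝 0) := by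
    simpa using h1.const_mul (4 * |B|)
  filter_upwards [h2.eventually (gt_mem_nhds one_pos), eventually_gt_atTop 0] with i hi hi0 hr
  have h3 : (0 : ℝ) < 2 ^ i := by positivity
  have h4 : (2 : ℝ) ^ i ≤ 4 * i * ((PB 1 i).card : ℝ) := by
    unfold Rich at hr
    exact_mod_cast hr
  have h5 : 4 * |B| * (i : ℝ) < 2 ^ i := by
    rw [pow_one, mul_div_assoc', div_lt_one h3] at hi
    exact hi
  have h6 : (0 : ℝ) < i := by exact_mod_cast hi0
  have h7 : |B| ≤ ((PB 1 i).card : ℝ) := by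
    by_contra hlt
    push Not at hlt
    nlinarith [mul_lt_mul_of_pos_right hlt h6]
  exact (le_abs_self B).trans h7

theorem st_MSP (hKER : Pool.Agent.Helper40.DZ.ST_KER) (hLMF : Pool.Agent.Helper40.JZ.ST_LMF)
    (hRIS : Pool.Agent.Helper98.GY.ST_RIS) (hEQR : Pool.Agent.Helper98.GY.ST_EQR) : Pool.Agent.Helper98.GY.ST_MSP := by
  intro Y _ _ _ _ ν _ S hS hm hE hyp d φ c x κ H₀ hφ hc hκ hH₀ hyp2
  obtain ⟨V, hV⟩ := (ri_cont (ν := ν) hc).2
  obtain ⟨P₀, hP⟩ := hyp d φ c hφ hc (κ / 16) (by positivity)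
  have hpow : ∀ᶠ i : ℕ in atTop, P₀ ≤ 2 ^ i := by
    filter_upwards [eventually_ge_atTop P₀] with i hi
    exact hi.trans Nat.lt_two_pow_self.le
  filter_upwards [hyp2, rich_large (2 * (V ^ 2 * V ^ 2) / κ + 1), hpow] with i h1 h2 h3
  intro hrich
  have hyp1 := h1 hrich
  have hbig := h2 hrich
  obtain ⟨b, hb⟩ : ∃ b : ℝ, b = ((PB 1 i).card : ℝ) := ⟨_, rfl⟩
  rw [← hb] at hyp1 hbig
  have hb0 : 0 < b := lt_of_lt_of_le (by positivity) hbig
  have hbV : V ^ 2 * V ^ 2 ≤ κ / 2 * b := by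
    have h4 : 2 * (V ^ 2 * V ^ 2) / κ ≤ b := by linarith
    rw [div_le_iff₀ hκ] at h4
    linarith
  have hPB : ∀ p ∈ PB 1 i, p.Prime ∧ P₀ ≤ p := fun p hp => by
    unfold PB at hp
    rw [Finset.mem_filter, Finset.mem_Ioc] at hp
    exact ⟨hp.2.1, h3.trans hp.1.1.le⟩
  -- the averages of the masses
  obtain ⟨L, hL⟩ : ∃ L : ℕ → ℝ, L = fun p => LM (NK ν S φ c) p := ⟨_, rfl⟩
  obtain ⟨A, hA⟩ : ∃ A : ℕ → ℝ, A = fun p =>
    (∑ h ∈ range H₀, ∑ h' ∈ range H₀, NK ν S φ c (p * h) (p * h')) / (H₀ : ℝ) ^ 2 := ⟨_, rfl⟩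
  have hH0 : (0 : ℝ) < (H₀ : ℝ) := by exact_mod_cast hH₀
  have hA0 : ∀ p, 0 ≤ A p := fun p => by
    rw [hA]
    refine div_nonneg (Finset.sum_nonneg fun _ _ => Finset.sum_nonneg fun _ _ => ?_) (sq_nonneg _)
    exact sq_nonneg _
  have hLA : ∀ p, √(L p) ≤ √(A p) := fun p => by
    rw [hL, hA]
    exact Real.sqrt_le_sqrt (LM_le hLMF hS hm hφ hc p H₀ hH₀)
  have hAs : ∑ p ∈ PB 1 i, A p ≤ κ * b := by
    rw [hA]
    simp only
    rw [← Finset.sum_div, div_le_iff₀ (by positivity)]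
    exact hyp1
  -- the number of shifts
  have hj : ∀ p q : ℕ, ∃ j₀ : ℕ, p ∈ PB 1 i → q ∈ PB 1 i → p ≠ q → ∀ j ≥ j₀,
      ∀ lam : Measure (Y × Y), Jn ν S p q lam →
      aHY S φ c p q lam (j + 1).factorial < √(L p) * √(L q) + κ / 16 + κ / 16 := by
    intro p q
    by_cases hpq : p ∈ PB 1 i ∧ q ∈ PB 1 i ∧ p ≠ q
    · obtain ⟨k1, k2, k3⟩ := hpq
      obtain ⟨p1, p2⟩ := hPB p k1
      obtain ⟨q1, q2⟩ := hPB q k2
      obtain ⟨j₀, hj₀⟩ := pair_bound (φ := φ) (c := c) hKER hRIS hS hm hE hφ hc p1.one_lt.le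
        q1.one_lt.le (√(L p) * √(L q) + κ / 16) (κ / 16) (by positivity)
        fun lam l1 l2 l3 l4 => by
          rw [hL]
          exact hP p p2 p1 q q2 q1 k3 lam ⟨l1, l2, l3, l4⟩
      exact ⟨j₀, fun _ _ _ => hj₀⟩
    · exact ⟨0, fun k1 k2 k3 => absurd ⟨k1, k2, k3⟩ hpq⟩
  choose j₀ hj₀ using hj
  obtain ⟨J, hJ⟩ : ∃ J : ℕ, ∀ p ∈ PB 1 i, ∀ q ∈ PB 1 i, j₀ p q ≤ J := by
    refine ⟨∑ p ∈ PB 1 i, ∑ q ∈ PB 1 i, j₀ p q, fun p hp q hq => ?_⟩
    exact (Finset.single_le_sum (f := fun q => j₀ p q) (fun _ _ => Nat.zero_le _) hq).trans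
      (Finset.single_le_sum (f := fun p => ∑ q ∈ PB 1 i, j₀ p q) (fun _ _ => Nat.zero_le _) hp)
  obtain ⟨H, hH⟩ : ∃ H : ℕ, H = (J + 1).factorial := ⟨_, rfl⟩
  have hH1 : 1 ≤ H := by
    rw [hH]
    exact Nat.factorial_pos _
  have hHpos : (0 : ℝ) < (H : ℝ) := by exact_mod_cast hH1
  refine ⟨H, hH1, fun Q hQ => ?_⟩
  have hpair : ∀ᶠ M : ℕ in atTop, ∀ p ∈ Q, ∀ q ∈ Q.erase p,
      ∑ y ∈ Icc 1 M, PS S φ c p q H (S^[p * y] x, S^[q * y] x) ≤
        (√(A p) * √(A q) + κ / 4) * M := by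
    rw [Filter.eventually_all_finset]
    intro p hp
    rw [Filter.eventually_all_finset]
    intro q hq
    have hq' := Finset.mem_erase.1 hq
    have k1 := hQ hp
    have k2 := hQ hq'.2
    have p1 := (hPB p k1).1.one_lt.le
    have q1 := (hPB q k2).1.one_lt.le
    have h4 := (nice_PS hRIS hS hm hφ hc p q H).orbit hEQR hS hE p1 q1
      (fun lam hl => PS_int hS hm hφ hc hl H) (√(L p) * √(L q) + κ / 16 + κ / 16)
      (fun lam hl => by
        rw [PS_eq hS hm hφ hc hl, hH]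
        exact hj₀ p q k1 k2 (Ne.symm hq'.1) J (hJ p k1 q k2) lam hl) x (κ / 8) (by positivity)
    filter_upwards [h4] with M hM
    refine hM.trans (mul_le_mul_of_nonneg_right ?_ (Nat.cast_nonneg M))
    have h5 : √(L p) * √(L q) ≤ √(A p) * √(A q) :=
      mul_le_mul (hLA p) (hLA q) (Real.sqrt_nonneg _) (Real.sqrt_nonneg _)
    linarith
  filter_upwards [hpair] with M hM
  have hM0 : (0 : ℝ) ≤ M := Nat.cast_nonneg M
  have hqb : (Q.card : ℝ) ≤ b := by
    rw [hb]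
    exact_mod_cast Finset.card_le_card hQ
  -- the expansion
  have e1 : ∀ h h' y : ℕ, ‖∑ p ∈ Q, EE S φ c (p * h) (p * h') (S^[p * y] x)‖ ^ 2 =
      ∑ p ∈ Q, ‖EE S φ c (p * h) (p * h') (S^[p * y] x)‖ ^ 2 +
      ∑ p ∈ Q, ∑ q ∈ Q.erase p, (pk S φ c p q h h' (S^[p * y] x, S^[q * y] x)).re :=
    fun h h' y => str4_sq' Q fun p => EE S φ c (p * h) (p * h') (S^[p * y] x)
  have e2 : ∑ h ∈ range H, ∑ h' ∈ range H, ∑ y ∈ Icc 1 M,
      ∑ p ∈ Q, ‖EE S φ c (p * h) (p * h') (S^[p * y] x)‖ ^ 2 ≤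
      V ^ 2 * V ^ 2 * b * (H : ℝ) ^ 2 * M := by
    have f1 : ∀ (p h h' y : ℕ), ‖EE S φ c (p * h) (p * h') (S^[p * y] x)‖ ^ 2 ≤
        V ^ 2 * V ^ 2 := by
      intro p h h' y
      have := EE_norm S φ c hφ.2 V hV (p * h) (p * h') (S^[p * y] x)
      rw [sq]
      exact mul_le_mul this this (norm_nonneg _) (sq_nonneg _)
    calc ∑ h ∈ range H, ∑ h' ∈ range H, ∑ y ∈ Icc 1 M,
          ∑ p ∈ Q, ‖EE S φ c (p * h) (p * h') (S^[p * y] x)‖ ^ 2
        ≤ ∑ h ∈ range H, ∑ h' ∈ range H, ∑ y ∈ Icc 1 M, ∑ p ∈ Q, V ^ 2 * V ^ 2 :=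
          Finset.sum_le_sum fun h _ => Finset.sum_le_sum fun h' _ => Finset.sum_le_sum fun y _ =>
            Finset.sum_le_sum fun p _ => f1 p h h' y
      _ = V ^ 2 * V ^ 2 * Q.card * (H : ℝ) ^ 2 * M := by
          simp only [Finset.sum_const, Finset.card_range, Nat.card_Icc, nsmul_eq_mul,
            Nat.add_sub_cancel]
          ring
      _ ≤ V ^ 2 * V ^ 2 * b * (H : ℝ) ^ 2 * M := by
          gcongr
  have e3 : ∑ h ∈ range H, ∑ h' ∈ range H, ∑ y ∈ Icc 1 M,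
      ∑ p ∈ Q, ∑ q ∈ Q.erase p, (pk S φ c p q h h' (S^[p * y] x, S^[q * y] x)).re =
      ∑ p ∈ Q, ∑ q ∈ Q.erase p, (H : ℝ) ^ 2 *
        ∑ y ∈ Icc 1 M, PS S φ c p q H (S^[p * y] x, S^[q * y] x) := by
    have f1 : ∀ p q y : ℕ, (H : ℝ) ^ 2 * PS S φ c p q H (S^[p * y] x, S^[q * y] x) =
        ∑ h ∈ range H, ∑ h' ∈ range H, (pk S φ c p q h h' (S^[p * y] x, S^[q * y] x)).re := by
      intro p q y
      unfold PS
      rw [Finset.mul_sum]
      refine Finset.sum_congr rfl fun h _ => ?_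
      rw [Finset.mul_sum]
      refine Finset.sum_congr rfl fun h' _ => ?_
      field_simp
    simp only [Finset.mul_sum, f1]
    have g1 : ∀ h ∈ range H, ∑ h' ∈ range H, ∑ y ∈ Icc 1 M,
        ∑ p ∈ Q, ∑ q ∈ Q.erase p, (pk S φ c p q h h' (S^[p * y] x, S^[q * y] x)).re =
        ∑ p ∈ Q, ∑ q ∈ Q.erase p, ∑ y ∈ Icc 1 M, ∑ h' ∈ range H,
          (pk S φ c p q h h' (S^[p * y] x, S^[q * y] x)).re := by
      intro h _
      rw [Finset.sum_comm]
      have : ∀ y ∈ Icc 1 M, ∑ h' ∈ range H,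
          ∑ p ∈ Q, ∑ q ∈ Q.erase p, (pk S φ c p q h h' (S^[p * y] x, S^[q * y] x)).re =
          ∑ p ∈ Q, ∑ q ∈ Q.erase p, ∑ h' ∈ range H,
          (pk S φ c p q h h' (S^[p * y] x, S^[q * y] x)).re := by
        intro y _
        rw [Finset.sum_comm]
        exact Finset.sum_congr rfl fun p _ => Finset.sum_comm
      rw [Finset.sum_congr rfl this, Finset.sum_comm]
      exact Finset.sum_congr rfl fun p _ => Finset.sum_comm
    rw [Finset.sum_congr rfl g1, Finset.sum_comm]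
    refine Finset.sum_congr rfl fun p _ => ?_
    rw [Finset.sum_comm]
    refine Finset.sum_congr rfl fun q _ => ?_
    rw [Finset.sum_comm]
  have e4 : ∑ p ∈ Q, ∑ q ∈ Q.erase p, (H : ℝ) ^ 2 *
        ∑ y ∈ Icc 1 M, PS S φ c p q H (S^[p * y] x, S^[q * y] x) ≤
      (H : ℝ) ^ 2 * (κ * b ^ 2 + κ / 4 * b ^ 2) * M := by
    have f1 : ∑ p ∈ Q, ∑ q ∈ Q.erase p, (H : ℝ) ^ 2 *
        ∑ y ∈ Icc 1 M, PS S φ c p q H (S^[p * y] x, S^[q * y] x) ≤
        ∑ p ∈ Q, ∑ q ∈ Q, (H : ℝ) ^ 2 * ((√(A p) * √(A q) + κ / 4) * M) := by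
      refine Finset.sum_le_sum fun p hp => ?_
      refine (Finset.sum_le_sum fun q hq =>
        mul_le_mul_of_nonneg_left (hM p hp q hq) (sq_nonneg _)).trans ?_
      exact Finset.sum_le_sum_of_subset_of_nonneg (Finset.erase_subset _ _) fun q _ _ => by
        positivity
    refine f1.trans ?_
    have f2 : ∑ p ∈ Q, ∑ q ∈ Q, (H : ℝ) ^ 2 * ((√(A p) * √(A q) + κ / 4) * M) =
        (H : ℝ) ^ 2 * ((∑ p ∈ Q, √(A p)) ^ 2 + κ / 4 * (Q.card : ℝ) ^ 2) * M := by
      have g1 : ∀ p ∈ Q, ∑ q ∈ Q, (H : ℝ) ^ 2 * ((√(A p) * √(A q) + κ / 4) * M) =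
          (H : ℝ) ^ 2 * M * (√(A p) * ∑ q ∈ Q, √(A q) + Q.card * (κ / 4)) := by
        intro p _
        rw [Finset.mul_sum (s := Q) (f := fun q => √(A q)), ← nsmul_eq_mul, ← Finset.sum_const,
          ← Finset.sum_add_distrib, Finset.mul_sum]
        exact Finset.sum_congr rfl fun q _ => by ring
      rw [Finset.sum_congr rfl g1, ← Finset.mul_sum, Finset.sum_add_distrib, ← Finset.sum_mul,
        Finset.sum_const, nsmul_eq_mul]
      ring
    rw [f2]
    have f3 : (∑ p ∈ Q, √(A p)) ^ 2 ≤ κ * b ^ 2 := by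
      have g1 : (∑ p ∈ Q, √(A p)) ^ 2 ≤ Q.card * ∑ p ∈ Q, √(A p) ^ 2 := sq_sum_le_card_mul_sum_sq
      have g2 : ∑ p ∈ Q, √(A p) ^ 2 ≤ κ * b := by
        refine le_trans ?_ hAs
        refine (Finset.sum_le_sum_of_subset_of_nonneg hQ fun p _ _ => sq_nonneg _).trans ?_
        exact Finset.sum_le_sum fun p _ => (Real.sq_sqrt (hA0 p)).le
      have g3 : 0 ≤ ∑ p ∈ Q, √(A p) ^ 2 := Finset.sum_nonneg fun _ _ => sq_nonneg _
      calc (∑ p ∈ Q, √(A p)) ^ 2 ≤ Q.card * ∑ p ∈ Q, √(A p) ^ 2 := g1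
        _ ≤ b * (κ * b) := mul_le_mul hqb g2 g3 hb0.le
        _ = κ * b ^ 2 := by ring
    have f4 : κ / 4 * (Q.card : ℝ) ^ 2 ≤ κ / 4 * b ^ 2 := by
      gcongr
    gcongr
  simp only [e1, Finset.sum_add_distrib]
  rw [e3]
  refine (add_le_add e2 e4).trans ?_
  rw [← hb]
  have e5 : V ^ 2 * V ^ 2 * b ≤ κ / 2 * b ^ 2 := by
    have := mul_le_mul_of_nonneg_right hbV hb0.le
    nlinarith
  have e6 : V ^ 2 * V ^ 2 * b * (H : ℝ) ^ 2 * M ≤ κ / 2 * b ^ 2 * (H : ℝ) ^ 2 * M := by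
    gcongr
  have e7 : 0 ≤ κ * b ^ 2 * (H : ℝ) ^ 2 * M := by positivity
  nlinarith


end Pool.Agent.Helper47.GY
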