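import Pool.Agent.Helper98.GY.Defs

/-!
Sheet GY (MP_7a8f48_an): Riemann integrable functions on a compact metric space.
-/

set_option linter.unusedSectionVars false

open MeasureTheory Filter Topology Finset
open scoped ComplexConjugate

namespace Pool.Agent.Helper47.GY

open Pool.Agent.Helper16.AZ (E Op)
open Pool.Agent.Helper16.BZ (co Wk EE)
open Pool.Agent.Helper98.GY (RI UR)

variable {Y : Type} [MetricSpace Y] [CompactSpace Y] [MeasurableSpace Y] [BorelSpace Y]
  {ν : Measure Y} [IsProbabilityMeasure ν]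

theorem aesm_of_ae {V : Type} [TopologicalSpace V] [TopologicalSpace.PseudoMetrizableSpace V]
    {F : Y → V} (h : ∀ᵐ x ∂ν, ContinuousAt F x) : AEStronglyMeasurable F ν := by
  let := TopologicalSpace.pseudoMetrizableSpacePseudoMetric V
  obtain ⟨A, hA⟩ : ∃ A : Set Y, A = {x | ContinuousAt F x} := ⟨_, rfl⟩
  have h1 : MeasurableSet A := by
    rw [hA]
    exact (IsGδ.setOfPred_continuousAt F).measurableSet
  have h2 : ContinuousOn F A := by
    intro x hx
    rw [hA] at hx
    exact ContinuousAt.continuousWithinAt hx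
  have h3 := h2.aestronglyMeasurable (μ := ν) h1
  have h4 : ∀ᵐ x ∂ν, x ∈ A := by
    rw [hA]
    exact h
  rwa [Measure.restrict_eq_self_of_ae_mem h4] at h3

variable {V : Type} [NormedAddCommGroup V] {F G : Y → V}

theorem ri_aesm (h : RI ν F) : AEStronglyMeasurable F ν := aesm_of_ae h.1

theorem ri_cont (h : Continuous F) : RI ν F := by
  refine ⟨Eventually.of_forall fun x => h.continuousAt, ?_⟩
  obtain ⟨C, hC⟩ := (isCompact_range h).isBounded.exists_norm_le
  exact ⟨C, fun x => hC _ ⟨x, rfl⟩⟩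

theorem ri_conj {F : Y → ℂ} (h : RI ν F) : RI ν (fun x => conj (F x)) := by
  obtain ⟨C, hC⟩ := h.2
  refine ⟨h.1.mono fun x hx => ?_, C, fun x => by rw [RCLike.norm_conj]; exact hC x⟩
  exact (Complex.continuous_conj.continuousAt).comp hx

theorem ri_comp {S : Y → Y} (hS : Continuous S) (hm : MeasurePreserving S ν ν)
    (h : RI ν F) : RI ν (fun x => F (S x)) := by
  obtain ⟨C, hC⟩ := h.2
  refine ⟨?_, C, fun x => hC _⟩
  filter_upwards [hm.quasiMeasurePreserving.ae h.1] with x hx
  exact ContinuousAt.comp (f := S) hx hS.continuousAt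

theorem ri_inner {d : ℕ} {F G : Y → E d} (h : RI ν F) (h' : RI ν G) :
    RI ν (fun x => inner ℂ (F x) (G x) : Y → ℂ) := by
  obtain ⟨C, hC⟩ := h.2
  obtain ⟨C', hC'⟩ := h'.2
  refine ⟨?_, C * C', fun x => ?_⟩
  · filter_upwards [h.1, h'.1] with x h1 h2
    exact ContinuousAt.inner h1 h2
  · refine (norm_inner_le_norm _ _).trans ?_
    exact mul_le_mul (hC x) (hC' x) (norm_nonneg _) ((norm_nonneg _).trans (hC x))

variable {d : ℕ} {φ : Y → Op d} {S : Y → Y}

theorem co_ae (hS : Continuous S) (hm : MeasurePreserving S ν ν) (h : UR ν φ) (n : ℕ) :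
    ∀ᵐ x ∂ν, ContinuousAt (co S φ n) x := by
  induction n with
  | zero => exact Eventually.of_forall fun x => continuousAt_const
  | succ n ih =>
    filter_upwards [ih, (hm.iterate n).quasiMeasurePreserving.ae h.1] with x h1 h2
    have h3 : ContinuousAt (fun x => φ (S^[n] x)) x :=
      ContinuousAt.comp (f := S^[n]) h2 (hS.iterate n).continuousAt
    exact h3.mul h1

theorem Wk_RI (hS : Continuous S) (hm : MeasurePreserving S ν ν) (h : UR ν φ)
    {b : Y → E d} (hb : RI ν b) (k : ℕ) : RI ν (Wk S φ k b) := by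
  obtain ⟨C, hC⟩ := hb.2
  refine ⟨?_, C, fun x => ?_⟩
  · filter_upwards [co_ae hS hm h k, (ri_comp (hS.iterate k) (hm.iterate k) hb).1] with x h1 h2
    have h3 : ContinuousAt (fun x => star (co S φ k x)) x :=
      ((ContinuousLinearMap.adjoint : Op d ≃ₗᵢ⋆[ℂ] Op d).continuous.continuousAt).comp h1
    exact h3.clm_apply h2
  · rw [Pool.Agent.Helper16.BZ.Wk_norm S φ b h.2]
    exact hC _

theorem EE_RI (hS : Continuous S) (hm : MeasurePreserving S ν ν) (h : UR ν φ)
    {b : Y → E d} (hb : RI ν b) (k k' : ℕ) : RI ν (EE S φ b k k') :=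
  ri_inner (Wk_RI hS hm h hb k) (Wk_RI hS hm h hb k')

end Pool.Agent.Helper47.GY
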